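import Pool.Agent.W254.PA.LeoA2

/-!
# Relations between `p`-adic logarithms of units with coefficients in a finite dimensional space
descend to one number field (helper551; based on the unused library files `W254.PA`)
-/

set_option autoImplicit false

namespace Pool.Agent.N551.LF

open Module Finset NormedSpace Pool.Agent.W254.PA Pool.Agent.W254.Ab
open Pool.Agent.W245.PB (IsIwasawaLog brumer)

/-- `a = ∑ j, q j * b j` with `b j ∈ A` and linearly independent `q j` in a given submodule `R` -/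
theorem basis_form {Ω : Type} [Field Ω] [CharZero Ω] (A : AddSubgroup Ω) {r : ℕ}
    (R : Submodule ℤ (Fin r → ℤ)) {T : Type} [Fintype T] (q' : T → Fin r → ℤ) (hq : ∀ t, q' t ∈ R)
    (α : T → Ω) (hα : ∀ t, α t ∈ A) (a : Fin r → Ω) (ha : ∀ i, a i = ∑ t, (q' t i : Ω) * α t) :
    ∃ (s : ℕ) (q : Fin s → Fin r → ℤ) (b : Fin s → Ω), LinearIndependent ℤ q ∧ (∀ j, b j ∈ A) ∧
      (∀ i, a i = ∑ j, (q j i : Ω) * b j) ∧ ∀ j, q j ∈ R := by
  classical
  obtain ⟨s, B⟩ := Submodule.basisOfPid (Pi.basisFun ℤ (Fin r)) R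
  refine ⟨s, fun j => (B j : Fin r → ℤ), fun j => ∑ t, ((B.repr ⟨q' t, hq t⟩ j : ℤ) : Ω) * α t, ?_, ?_, ?_, ?_⟩
  · exact B.linearIndependent.map' R.subtype R.ker_subtype
  · intro j
    refine A.sum_mem fun t _ => ?_
    rw [← zsmul_eq_mul]
    exact A.zsmul_mem (hα t) _
  · intro i
    have h1 : ∀ t, q' t i = ∑ j, B.repr ⟨q' t, hq t⟩ j * (B j : Fin r → ℤ) i := by
      intro t
      have h2 := B.sum_repr ⟨q' t, hq t⟩
      have h3 := congrArg (fun x : R => (x : Fin r → ℤ) i) h2
      simp only [Submodule.coe_sum, Finset.sum_apply, Submodule.coe_smul, Pi.smul_apply,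
        smul_eq_mul] at h3
      exact h3.symm
    rw [ha i]
    simp only [h1, Finset.mul_sum]
    push_cast
    simp only [Finset.sum_mul]
    rw [Finset.sum_comm]
    refine Finset.sum_congr rfl fun j _ => Finset.sum_congr rfl fun t _ => ?_
    ring
  · intro j
    exact (B j).2

variable {p : ℕ} [hp : Fact p.Prime] {L : PadicAlgCl p → PadicAlgCl p} (hL : IsIwasawaLog p L)

/-- `A` as an additive group -/
noncomputable def AG (A : Submodule (QA (PadicAlgCl p)) (PadicAlgCl p)) : AddSubgroup (PadicAlgCl p) :=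
  A.toAddSubgroup

theorem mem_AG {A : Submodule (QA (PadicAlgCl p)) (PadicAlgCl p)} {x : PadicAlgCl p} :
    x ∈ AG A ↔ x ∈ A := Iff.rfl

theorem rat_mul_mem (A : Submodule (QA (PadicAlgCl p)) (PadicAlgCl p)) {z : PadicAlgCl p}
    (hz : z ∈ A) (c : ℚ) : (c : PadicAlgCl p) * z ∈ A := by
  have h1 := A.smul_mem (algebraMap ℚ (QA (PadicAlgCl p)) c) hz
  rw [Algebra.smul_def] at h1
  have h2 : (algebraMap (QA (PadicAlgCl p)) (PadicAlgCl p))
      (algebraMap ℚ (QA (PadicAlgCl p)) c) = (c : PadicAlgCl p) := by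
    rw [← IsScalarTower.algebraMap_apply]
    exact eq_ratCast _ _
  rw [h2] at h1
  exact h1

/-- a system of rational equations for the coefficients -/
theorem rat_form (A : Submodule (QA (PadicAlgCl p)) (PadicAlgCl p)) {r : ℕ}
    (a : Fin r → PadicAlgCl p) (ha : ∀ i, a i ∈ A) :
    ∃ (T : ℕ) (α : Fin T → PadicAlgCl p) (c : Fin T → Fin r → ℚ), (∀ t, α t ∈ A) ∧
      LinearIndependent ℚ α ∧ ∀ i, a i = ∑ t, (c t i : PadicAlgCl p) * α t := by
  classical
  let U : Submodule ℚ (PadicAlgCl p) := Submodule.span ℚ (Set.range a)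
  haveI : FiniteDimensional ℚ U := FiniteDimensional.span_of_finite ℚ (Set.finite_range a)
  let B := Module.finBasis ℚ U
  have hUA : ∀ x ∈ U, x ∈ A := by
    intro x hx
    refine Submodule.span_induction (p := fun x _ => x ∈ A) ?_ ?_ ?_ ?_ hx
    · rintro _ ⟨i, rfl⟩
      exact ha i
    · exact A.zero_mem
    · intro x y _ _ hx hy
      exact A.add_mem hx hy
    · intro c x _ hx
      rw [Rat.smul_def]
      exact rat_mul_mem A hx c
  have haU : ∀ i, a i ∈ U := fun i => Submodule.subset_span ⟨i, rfl⟩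
  refine ⟨finrank ℚ U, fun t => (B t : PadicAlgCl p), fun t i => B.repr ⟨a i, haU i⟩ t, ?_, ?_, ?_⟩
  · intro t
    exact hUA _ (B t).2
  · exact B.linearIndependent.map' U.subtype U.ker_subtype
  · intro i
    have h2 := B.sum_repr ⟨a i, haU i⟩
    have h3 := congrArg (fun x : U => (x : PadicAlgCl p)) h2
    simp only [Submodule.coe_sum, Submodule.coe_smul, Rat.smul_def] at h3
    exact h3.symm

section gal

variable {k Q : Type} [Field k] [CharZero k] [Field Q] [CharZero Q] [Algebra k Q] [IsGalois k Q]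

/-- the exponents of the products which belong to a field -/
def expMod (F : IntermediateField k Q) {r : ℕ} (ε : Fin r → Q) (hε : ∀ i, IsU (ε i)) :
    Submodule ℤ (Fin r → ℤ) :=
  AddSubgroup.toIntSubmodule
    { carrier := {q | ∏ i, ε i ^ q i ∈ F}
      add_mem' := by
        intro a b ha hb
        have h1 : ∏ i, ε i ^ (a + b) i = (∏ i, ε i ^ a i) * ∏ i, ε i ^ b i := by
          rw [← Finset.prod_mul_distrib]
          exact Finset.prod_congr rfl fun i _ => zpow_add₀ (hε i).ne _ _
        change ∏ i, ε i ^ (a + b) i ∈ F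
        rw [h1]
        exact F.mul_mem ha hb
      zero_mem' := by
        change ∏ i, ε i ^ (0 : Fin r → ℤ) i ∈ F
        simp only [Pi.zero_apply, zpow_zero, Finset.prod_const_one]
        exact F.one_mem
      neg_mem' := by
        intro a ha
        have h1 : ∏ i, ε i ^ (-a) i = (∏ i, ε i ^ a i)⁻¹ := by
          rw [← Finset.prod_inv_distrib]
          refine Finset.prod_congr rfl fun i _ => ?_
          rw [Pi.neg_apply, zpow_neg]
        change ∏ i, ε i ^ (-a) i ∈ F
        rw [h1]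
        exact F.inv_mem ha }

theorem mem_expMod (F : IntermediateField k Q) {r : ℕ} (ε : Fin r → Q) (hε : ∀ i, IsU (ε i))
    (q : Fin r → ℤ) : q ∈ expMod F ε hε ↔ ∏ i, ε i ^ q i ∈ F := Iff.rfl

include hL in
/-- **Relations with coefficients in a finite dimensional space descend to one number field.** -/
theorem descend (ι : Q →+* PadicAlgCl p)
    (A : Submodule (QA (PadicAlgCl p)) (PadicAlgCl p)) [FiniteDimensional (QA (PadicAlgCl p)) A] :
    ∃ F₀ : IntermediateField k Q, FiniteDimensional k F₀ ∧ Normal k F₀ ∧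
      ∀ (r : ℕ) (ε : Fin r → Q), (∀ i, IsU (ε i)) →
        ∀ a : Fin r → PadicAlgCl p, (∀ i, a i ∈ A) → ∑ i, a i * L (ι (ε i)) = 0 →
          ∃ (s : ℕ) (q : Fin s → Fin r → ℤ) (b : Fin s → PadicAlgCl p), LinearIndependent ℤ q ∧
            (∀ j, b j ∈ A) ∧ (∀ i, a i = ∑ j, (q j i : PadicAlgCl p) * b j) ∧
              ∀ j, ∏ i, ε i ^ q j i ∈ F₀ := by
  classical
  set s : Set (PadicAlgCl p) := {z | ∃ u : Q, IsU u ∧ z = L (ι u)} with hs
  obtain ⟨b, hbs, hspan, hli⟩ := exists_linearIndependent ℚ s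
  choose u hu hub using fun κ : b => hbs κ.2
  let w : b → PadicAlgCl p := fun κ => (κ : PadicAlgCl p)
  have hwu : ∀ κ, w κ = L (ι (u κ)) := fun κ => hub κ
  have hwL : (fun κ : b => L (ι (u κ))) = w := by
    funext κ
    exact (hwu κ).symm
  have hw : LinearIndependent (QA (PadicAlgCl p)) w := by
    have h1 := optP_indep hL (ι := b) (fun κ => ι (u κ)) (fun κ => ((hu κ).map ι).ne)
      (fun κ => ((hu κ).map ι).alg) (by rw [hwL]; exact hli)
    have h2 := h1.comp some (Option.some_injective b)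
    rw [← hwL]
    exact h2
  have hwmem : ∀ κ, w κ ∈ LtE (logs L) := by
    intro κ
    rw [hwu]
    exact log_memP ((hu κ).map ι).ne ((hu κ).map ι).alg
  obtain ⟨S, hS⟩ := exists_supp (hyp_padic hL) w hw hwmem A
  -- the field
  let F₁ : IntermediateField k Q := IntermediateField.adjoin k ((S.image u : Finset Q) : Set Q)
  haveI : FiniteDimensional k F₁ := by
    apply IntermediateField.finiteDimensional_adjoin
    intro x hx
    obtain ⟨κ, -, rfl⟩ := Finset.mem_image.mp (Finset.mem_coe.mp hx)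
    exact (hu κ).int.tower_top
  let F₀ : IntermediateField k Q := IntermediateField.normalClosure k F₁ Q
  have hF1 : F₁ ≤ F₀ := IntermediateField.le_normalClosure F₁
  haveI hF0n : Normal k F₀ := inferInstance
  haveI hF0f : FiniteDimensional k F₀ := inferInstance
  have huF : ∀ κ ∈ S, u κ ∈ F₀ := by
    intro κ hκ
    apply hF1
    apply IntermediateField.subset_adjoin
    exact Finset.mem_coe.mpr (Finset.mem_image_of_mem u hκ)
  refine ⟨F₀, hF0f, hF0n, ?_⟩
  intro r ε hε a haA ha0
  -- coordinates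
  have hcoord : ∀ i, ∃ e : b →₀ ℚ, e.sum (fun κ c => (c : PadicAlgCl p) * w κ) = L (ι (ε i)) := by
    intro i
    have h1 : L (ι (ε i)) ∈ Submodule.span ℚ b := by
      rw [hspan]
      exact Submodule.subset_span ⟨ε i, hε i, rfl⟩
    obtain ⟨e, he⟩ := (Finsupp.mem_span_iff_linearCombination ℚ b _).mp h1
    refine ⟨e, ?_⟩
    rw [← he, Finsupp.linearCombination_apply]
    apply Finsupp.sum_congr
    intro κ _
    rw [Rat.smul_def]
  choose e he using hcoord
  let T : Finset b := Finset.univ.biUnion (fun i => (e i).support)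
  have hT : ∀ i, (e i).support ⊆ T := fun i =>
    Finset.subset_biUnion_of_mem (fun i => (e i).support) (Finset.mem_univ i)
  have heT : ∀ i, ∑ κ ∈ T, (e i κ : PadicAlgCl p) * w κ = L (ι (ε i)) := by
    intro i
    rw [← he i, Finsupp.sum_of_support_subset _ (hT i) _ (by intro κ _; simp)]
  -- the relation
  let F : b →₀ PadicAlgCl p := ∑ i, a i • (e i).mapRange (fun q : ℚ => (q : PadicAlgCl p)) (by simp)
  have hFκ : ∀ κ, F κ = ∑ i, a i * (e i κ : PadicAlgCl p) := by
    intro κ
    change (∑ i, a i • (e i).mapRange (fun q : ℚ => (q : PadicAlgCl p)) (by simp)) κ = _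
    rw [Finsupp.finsetSum_apply]
    apply Finset.sum_congr rfl
    intro i _
    rw [Finsupp.smul_apply, Finsupp.mapRange_apply, smul_eq_mul]
  have hFT : F.support ⊆ T := by
    intro κ hκ
    by_contra hκT
    apply Finsupp.mem_support_iff.mp hκ
    rw [hFκ]
    apply Finset.sum_eq_zero
    intro i _
    have h1 : e i κ = 0 := by
      by_contra h0
      exact hκT (hT i (Finsupp.mem_support_iff.mpr h0))
    rw [h1, Rat.cast_zero, mul_zero]
  have hFrel : F ∈ relSet w A := by
    constructor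
    · intro κ
      rw [hFκ]
      apply A.sum_mem
      intro i _
      rw [mul_comm]
      exact rat_mul_mem A (haA i) _
    · rw [Finsupp.sum_of_support_subset _ hFT _ (by intro κ _; ring), ← ha0]
      simp only [hFκ, Finset.sum_mul]
      rw [Finset.sum_comm]
      apply Finset.sum_congr rfl
      intro i _
      rw [← heT i, Finset.mul_sum]
      apply Finset.sum_congr rfl
      intro κ _
      ring
  have hFS : ∀ κ, κ ∉ S → ∑ i, a i * (e i κ : PadicAlgCl p) = 0 := by
    intro κ hκ
    rw [← hFκ]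
    exact hS F hFrel κ hκ
  -- rational coordinates of the coefficients
  obtain ⟨m, α, c, hαA, hαli, hac⟩ := rat_form A a haA
  have hcS : ∀ t κ, κ ∉ S → ∑ i, c t i * e i κ = 0 := by
    intro t κ hκ
    have h1 := hFS κ hκ
    simp only [hac, Finset.sum_mul] at h1
    rw [Finset.sum_comm] at h1
    have h2 : ∑ t, (∑ i, c t i * e i κ) • α t = 0 := by
      rw [← h1]
      apply Finset.sum_congr rfl
      intro t _
      rw [Rat.smul_def]
      push_cast
      rw [Finset.sum_mul]
      apply Finset.sum_congr rfl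
      intro i _
      ring
    exact Fintype.linearIndependent_iff.mp hαli _ h2 t
  -- powers
  have hpow : ∀ t, ∃ (N : ℕ) (q : Fin r → ℤ), 1 ≤ N ∧ (∀ i, (q i : ℚ) = N * c t i) ∧
      ∏ i, ε i ^ q i ∈ F₀ := by
    intro t
    obtain ⟨N, q, hN, hq⟩ := exists_den Finset.univ (c t)
    -- coordinates of the logarithm of the product
    let g : b → ℚ := fun κ => ∑ i, (q i : ℚ) * e i κ
    have hg : ∀ κ, κ ∉ S → g κ = 0 := by
      intro κ hκ
      have h1 : g κ = N * ∑ i, c t i * e i κ := by
        change ∑ i, (q i : ℚ) * e i κ = _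
        rw [Finset.mul_sum]
        apply Finset.sum_congr rfl
        intro i hi
        rw [hq i hi]
        ring
      rw [h1, hcS t κ hκ, mul_zero]
    have hx : IsU (∏ i, ε i ^ q i) := IsU.prod _ _ (fun i _ => (hε i).zpow _)
    have hlog : L (ι (∏ i, ε i ^ q i)) = ∑ κ ∈ S, (g κ : PadicAlgCl p) * L (ι (u κ)) := by
      rw [map_prod]
      simp only [map_zpow₀]
      rw [log_prod_zpow hL Finset.univ (fun i => ι (ε i)) (fun i => (hε i).map ι) q]
      have h1 : ∑ κ ∈ S, (g κ : PadicAlgCl p) * L (ι (u κ)) =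
          ∑ κ ∈ T, (g κ : PadicAlgCl p) * L (ι (u κ)) := by
        have h2 : ∑ κ ∈ S, (g κ : PadicAlgCl p) * L (ι (u κ)) =
            ∑ κ ∈ S ∪ T, (g κ : PadicAlgCl p) * L (ι (u κ)) := by
          apply Finset.sum_subset Finset.subset_union_left
          intro κ _ hκ
          rw [hg κ hκ, Rat.cast_zero, zero_mul]
        rw [h2]
        symm
        apply Finset.sum_subset Finset.subset_union_right
        intro κ _ hκ
        have h3 : g κ = 0 := by
          apply Finset.sum_eq_zero
          intro i _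
          have h4 : e i κ = 0 := by
            by_contra h0
            exact hκ (hT i (Finsupp.mem_support_iff.mpr h0))
          rw [h4, mul_zero]
        rw [h3, Rat.cast_zero, zero_mul]
      rw [h1]
      have h5 : ∀ κ, (g κ : PadicAlgCl p) = ∑ i, (q i : PadicAlgCl p) * (e i κ : PadicAlgCl p) := by
        intro κ
        change ((∑ i, (q i : ℚ) * e i κ : ℚ) : PadicAlgCl p) = _
        push_cast
        rfl
      simp only [h5, Finset.sum_mul]
      rw [Finset.sum_comm]
      apply Finset.sum_congr rfl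
      intro i _
      rw [← heT i, Finset.mul_sum]
      apply Finset.sum_congr rfl
      intro κ _
      rw [hwu κ]
      ring
    -- clear the denominators
    obtain ⟨M, n, hM, hn⟩ := exists_den S g
    have hyU : IsU (∏ κ ∈ S, u κ ^ n κ) := IsU.prod _ _ (fun κ _ => (hu κ).zpow _)
    have hylog : L (ι (∏ κ ∈ S, u κ ^ n κ)) = M * L (ι (∏ i, ε i ^ q i)) := by
      rw [hlog, map_prod]
      simp only [map_zpow₀]
      rw [log_prod_zpow hL S (fun κ => ι (u κ)) (fun κ => (hu κ).map ι) n, Finset.mul_sum]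
      apply Finset.sum_congr rfl
      intro κ hκ
      have h6 := congrArg (fun z : ℚ => (z : PadicAlgCl p)) (hn κ hκ)
      push_cast at h6
      rw [h6]
      ring
    have hzU : IsU ((∏ i, ε i ^ q i) ^ M * (∏ κ ∈ S, u κ ^ n κ)⁻¹) :=
      (hx.pow M).mul hyU.inv'
    have hz0 : L (ι ((∏ i, ε i ^ q i) ^ M * (∏ κ ∈ S, u κ ^ n κ)⁻¹)) = 0 := by
      have h7 : ι ((∏ i, ε i ^ q i) ^ M * (∏ κ ∈ S, u κ ^ n κ)⁻¹) =
          ι (∏ i, ε i ^ q i) ^ M * (ι (∏ κ ∈ S, u κ ^ n κ)) ^ (-1 : ℤ) := by
        rw [map_mul, map_pow, map_inv₀, zpow_neg_one]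
      rw [h7, hL.mul _ _ (pow_ne_zero _ (hx.map ι).ne) (zpow_ne_zero _ (hyU.map ι).ne),
        hL.pow (hx.map ι).ne, hL.zpow (hyU.map ι).ne, hylog]
      push_cast
      ring
    obtain ⟨l, hl, hl1⟩ := exists_pow_eq_one hL (hzU.map ι) hz0
    have hl2 : ((∏ i, ε i ^ q i) ^ M * (∏ κ ∈ S, u κ ^ n κ)⁻¹) ^ l = 1 := by
      apply ι.injective
      rw [map_pow, map_one, hl1]
    have hl3 : (∏ i, ε i ^ q i) ^ (M * l) = (∏ κ ∈ S, u κ ^ n κ) ^ l := by
      rw [mul_pow, inv_pow, ← pow_mul] at hl2
      exact (mul_inv_eq_one₀ (pow_ne_zero _ hyU.ne)).mp hl2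
    refine ⟨M * l * N, fun i => ((M * l : ℕ) : ℤ) * q i, ?_, ?_, ?_⟩
    · exact Nat.succ_le_of_lt (Nat.mul_pos (Nat.mul_pos hM hl) hN)
    · intro i
      push_cast
      rw [hq i (Finset.mem_univ i)]
      ring
    · have h8 : ∏ i, ε i ^ (((M * l : ℕ) : ℤ) * q i) = (∏ i, ε i ^ q i) ^ (M * l) := by
        rw [← Finset.prod_pow]
        apply Finset.prod_congr rfl
        intro i _
        rw [mul_comm, zpow_mul, zpow_natCast]
      rw [h8, hl3]
      refine pow_mem ?_ l
      apply F₀.prod_mem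
      intro κ hκ
      exact zpow_mem (huF κ hκ) _
  choose N q hN hq hqF using hpow
  -- the final form
  obtain ⟨s', q₁, b₁, h1, h2, h3, h4⟩ := basis_form (AG A) (expMod F₀ ε hε) q
    (fun t => (mem_expMod F₀ ε hε _).mpr (hqF t))
    (fun t => (((N t : ℚ)⁻¹ : ℚ) : PadicAlgCl p) * α t)
    (fun t => mem_AG.mpr (rat_mul_mem A (hαA t) _)) a (by
      intro i
      rw [hac i]
      apply Finset.sum_congr rfl
      intro t _
      have h5 := congrArg (fun z : ℚ => (z : PadicAlgCl p)) (hq t i)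
      push_cast at h5
      rw [h5]
      have h6 : (N t : PadicAlgCl p) ≠ 0 := by
        have := hN t
        have h7 : N t ≠ 0 := by omega
        exact_mod_cast h7
      push_cast
      field_simp)
  exact ⟨s', q₁, b₁, h1, fun j => mem_AG.mp (h2 j), h3, fun j => (mem_expMod F₀ ε hε _).mp (h4 j)⟩

end gal

end Pool.Agent.N551.LF
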