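import Pool.Agent.N551.LF.Desc

/-!
# Relations between `p`-adic logarithms of units: arbitrary embeddings, and the two equivalences
(helper551)
-/

set_option autoImplicit false

namespace Pool.Agent.N551.LF

open Module Finset NormedSpace NumberField Pool.Agent.W254.PA Pool.Agent.W254.Ab
open Pool.Agent.W245.PB (IsIwasawaLog brumer)

section units

variable {M : Type} [Field M]

/-- a unit of the ring of integers from an element -/
noncomputable def unitOf (x : M) (hx : IsU x) : (𝓞 M)ˣ where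
  val := ⟨x, hx.int⟩
  inv := ⟨x⁻¹, hx.inv⟩
  val_inv := by
    apply NumberField.RingOfIntegers.ext
    exact mul_inv_cancel₀ hx.ne
  inv_val := by
    apply NumberField.RingOfIntegers.ext
    exact inv_mul_cancel₀ hx.ne

theorem unitOf_coe (x : M) (hx : IsU x) : ((unitOf x hx : 𝓞 M) : M) = x := rfl

theorem isU_unit' (x : (𝓞 M)ˣ) : IsU ((x : 𝓞 M) : M) := by
  refine ⟨?_, ?_, ?_⟩
  · intro h
    have h4 : (x : 𝓞 M) = 0 := by
      apply NumberField.RingOfIntegers.ext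
      rw [h]; rfl
    exact x.ne_zero h4
  · exact (x : 𝓞 M).isIntegral_coe
  · have h4 : (((x : 𝓞 M) : M))⁻¹ = (((x)⁻¹ : (𝓞 M)ˣ) : 𝓞 M) := by
      apply inv_eq_of_mul_eq_one_right
      have h5 : ((x : 𝓞 M)) * (((x)⁻¹ : (𝓞 M)ˣ) : 𝓞 M) = 1 := Units.mul_inv _
      have h6 := congrArg (fun z : 𝓞 M => (z : M)) h5
      simpa using h6
    rw [h4]
    exact (((x)⁻¹ : (𝓞 M)ˣ) : 𝓞 M).isIntegral_coe

theorem coe_prod_zpow' {r : ℕ} (ε : Fin r → (𝓞 M)ˣ) (m : Fin r → ℤ) :
    ((((∏ i, ε i ^ m i : (𝓞 M)ˣ)) : 𝓞 M) : M) = ∏ i, (((ε i : 𝓞 M) : M)) ^ m i := by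
  have h5 : ∀ u : (𝓞 M)ˣ, ((u : 𝓞 M) : M) = Units.map (algebraMap (𝓞 M) M : 𝓞 M →* M) u :=
    fun u => rfl
  rw [h5, map_prod, Units.coe_prod]
  apply Finset.prod_congr rfl
  intro i _
  rw [map_zpow, Units.val_zpow_eq_zpow_val]
  rfl

/-- multiplicative independence of units in the two forms -/
theorem indep_iff {r : ℕ} (ε : Fin r → (𝓞 M)ˣ) :
    (∀ m : Fin r → ℤ, ∏ i, ε i ^ m i = 1 → m = 0) ↔
      ∀ m : Fin r → ℤ, ∏ i, (((ε i : 𝓞 M) : M)) ^ m i = 1 → m = 0 := by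
  constructor
  · intro h m hm
    apply h m
    apply Units.ext
    apply NumberField.RingOfIntegers.ext
    rw [coe_prod_zpow', hm]
    rfl
  · intro h m hm
    apply h m
    rw [← coe_prod_zpow', hm]
    rfl

end units

/-- the coordinates are in `y A` for some `y` -/
def InMul {p : ℕ} [Fact p.Prime] (A : Submodule (QA (PadicAlgCl p)) (PadicAlgCl p)) {r : ℕ}
    (a : Fin r → PadicAlgCl p) : Prop :=
  ∃ y : PadicAlgCl p, ∀ i, ∃ x ∈ A, a i = y * x

variable {p : ℕ} [hp : Fact p.Prime] {L : PadicAlgCl p → PadicAlgCl p} (hL : IsIwasawaLog p L)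

section gal2

variable {k Q : Type} [Field k] [CharZero k] [Field Q] [CharZero Q] [Algebra k Q] [IsGalois k Q]
  [IsAlgClosed Q]

include hL in
theorem descend' (hkk : ∀ f g : k →+* PadicAlgCl p, f = g) (ι₀ : Q →+* PadicAlgCl p)
    (A : Submodule (QA (PadicAlgCl p)) (PadicAlgCl p)) [FiniteDimensional (QA (PadicAlgCl p)) A] :
    ∃ F₀ : IntermediateField k Q, FiniteDimensional k F₀ ∧ Normal k F₀ ∧
      ∀ (K : IntermediateField k Q) (σ : K →+* PadicAlgCl p) (r : ℕ)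
        (ε : Fin r → K), (∀ i, IsU (ε i)) →
        ∀ a : Fin r → PadicAlgCl p, InMul A a → ∑ i, a i * L (σ (ε i)) = 0 →
          ∃ (s : ℕ) (q : Fin s → Fin r → ℤ) (b : Fin s → PadicAlgCl p), LinearIndependent ℤ q ∧
            InMul A b ∧ (∀ i, a i = ∑ j, (q j i : PadicAlgCl p) * b j) ∧
              ∀ j, ((∏ i, ε i ^ q j i : K) : Q) ∈ F₀ := by
  obtain ⟨F₀, hF, hN, h⟩ := descend hL (k := k) ι₀ A
  haveI := hN
  refine ⟨F₀, hF, hN, ?_⟩
  intro K σ r ε hε a ha ha0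
  -- extend the embedding
  letI : Algebra K (PadicAlgCl p) := σ.toAlgebra
  haveI : Algebra.IsAlgebraic K Q := Algebra.IsAlgebraic.tower_top (K := k) K
  let ι' : Q →ₐ[K] PadicAlgCl p := IsAlgClosed.lift
  have hι' : ∀ x : K, ι' (x : Q) = σ x := fun x => ι'.commutes x
  obtain ⟨g, hg⟩ := exists_gal (k := k) hkk ι₀ (ι' : Q →+* PadicAlgCl p)
  obtain ⟨y, hy⟩ := ha
  choose x hxA hx using hy
  by_cases hy0 : y = 0
  · refine ⟨0, fun j => Fin.elim0 j, fun j => Fin.elim0 j, linearIndependent_empty_type,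
      ⟨1, fun j => Fin.elim0 j⟩, ?_, fun j => Fin.elim0 j⟩
    intro i
    rw [hx i, hy0]
    simp
  obtain ⟨s, q, b, h1, h2, h3, h4⟩ := h r (fun i => g (ε i : Q)) (fun i => by
    have h1 : IsU ((ε i : K) : Q) := (hε i).map (algebraMap K Q)
    exact h1.map (g : Q →+* Q)) x hxA (by
    have h1 : ∀ i, ι₀ (g (ε i : Q)) = σ (ε i) := by
      intro i
      rw [hg]
      exact hι' (ε i)
    simp only [h1]
    have h2 : y * ∑ i, x i * L (σ (ε i)) = 0 := by
      rw [← ha0, Finset.mul_sum]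
      apply Finset.sum_congr rfl
      intro i _
      rw [hx i]
      ring
    exact (mul_eq_zero.mp h2).resolve_left hy0)
  refine ⟨s, q, fun j => y * b j, h1, ⟨y, fun j => ⟨b j, h2 j, rfl⟩⟩, ?_, ?_⟩
  · intro i
    rw [hx i, h3 i, Finset.mul_sum]
    apply Finset.sum_congr rfl
    intro j _
    ring
  · intro j
    have h5 : ∏ i, g (ε i : Q) ^ q j i = g ((∏ i, ε i ^ q j i : K) : Q) := by
      have h6 : ((∏ i, ε i ^ q j i : K) : Q) = ∏ i, ((ε i : K) : Q) ^ q j i := by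
        push_cast
        rfl
      rw [h6, map_prod]
      apply Finset.prod_congr rfl
      intro i _
      rw [map_zpow₀]
    have hz := h4 j
    rw [h5] at hz
    have h2 := AlgEquiv.restrictNormalHom_apply F₀ g.symm ⟨g ((∏ i, ε i ^ q j i : K) : Q), hz⟩
    have h3 : g.symm ((g ((∏ i, ε i ^ q j i : K) : Q) : Q)) = ((∏ i, ε i ^ q j i : K) : Q) :=
      g.symm_apply_apply _
    rw [h3] at h2
    rw [← h2]
    exact (AlgEquiv.restrictNormalHom F₀ g.symm ⟨g ((∏ i, ε i ^ q j i : K) : Q), hz⟩).2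

end gal2

/-- **The field.** -/
theorem isGalois_Qb' : IsGalois ℚ (AlgebraicClosure ℚ) := isGalois_Qb

/-- a field with a nontrivial relation for one embedding -/
def HasRel (L : PadicAlgCl p → PadicAlgCl p) (A : Submodule (QA (PadicAlgCl p)) (PadicAlgCl p))
    (K : Type) [Field K] : Prop :=
  ∃ (σ : K →+* PadicAlgCl p) (r : ℕ) (ε : Fin r → (𝓞 K)ˣ) (a : Fin r → PadicAlgCl p),
    (∀ m : Fin r → ℤ, ∏ i, ε i ^ m i = 1 → m = 0) ∧ InMul A a ∧
      ∑ i, a i * L (σ ((ε i : 𝓞 K) : K)) = 0 ∧ a ≠ 0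

/-- a field with a nontrivial relation for all embeddings -/
def HasLeo (L : PadicAlgCl p → PadicAlgCl p) (A : Submodule (QA (PadicAlgCl p)) (PadicAlgCl p))
    (K : Type) [Field K] : Prop :=
  ∃ (r : ℕ) (ε : Fin r → (𝓞 K)ˣ) (a : Fin r → PadicAlgCl p),
    (∀ m : Fin r → ℤ, ∏ i, ε i ^ m i = 1 → m = 0) ∧ InMul A a ∧
      (∀ σ : K →+* PadicAlgCl p, ∑ i, a i * L (σ ((ε i : 𝓞 K) : K)) = 0) ∧ a ≠ 0

/-- transport of a relation to a smaller field -/
theorem transport {K : Type} [Field K] {M : Type} [Field M] (j : M →+* K) {r s : ℕ}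
    (ε : Fin r → (𝓞 K)ˣ) (hind : ∀ m : Fin r → ℤ, ∏ i, ε i ^ m i = 1 → m = 0)
    (q : Fin s → Fin r → ℤ) (hq : LinearIndependent ℤ q) (x : Fin s → M)
    (hx : ∀ t, j (x t) = ((∏ i, ε i ^ q t i : (𝓞 K)ˣ) : 𝓞 K)) :
    ∃ η : Fin s → (𝓞 M)ˣ, (∀ t, ((η t : 𝓞 M) : M) = x t) ∧
      ∀ m : Fin s → ℤ, ∏ t, η t ^ m t = 1 → m = 0 := by
  have hU : ∀ t, IsU (x t) := by
    intro t
    have h1 : IsU (j (x t)) := by
      rw [hx t]
      exact isU_unit' _
    refine ⟨?_, ?_, ?_⟩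
    · intro h
      apply h1.ne
      rw [h, map_zero]
    · have h2 := h1.int
      exact (isIntegral_algHom_iff (j.toIntAlgHom) j.injective).mp h2
    · have h2 := h1.inv
      rw [← map_inv₀] at h2
      exact (isIntegral_algHom_iff (j.toIntAlgHom) j.injective).mp h2
  refine ⟨fun t => unitOf (x t) (hU t), fun t => rfl, ?_⟩
  rw [indep_iff]
  intro m hm
  have h1 : ∏ t, j (x t) ^ m t = 1 := by
    have h2 := congrArg j hm
    rw [map_prod, map_one] at h2
    rw [← h2]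
    apply Finset.prod_congr rfl
    intro t _
    rw [map_zpow₀]
    rfl
  have h3 : ∏ i, ε i ^ (∑ t, m t * q t i) = 1 := by
    apply Units.ext
    apply NumberField.RingOfIntegers.ext
    rw [coe_prod_zpow']
    have h4 : (((1 : (𝓞 K)ˣ) : 𝓞 K) : K) = 1 := rfl
    rw [h4, ← h1]
    have h5 : ∀ t, j (x t) ^ m t = ∏ i, (((ε i : 𝓞 K) : K)) ^ (m t * q t i) := by
      intro t
      rw [hx t, coe_prod_zpow', ← Finset.prod_zpow]
      apply Finset.prod_congr rfl
      intro i _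
      rw [← zpow_mul, mul_comm]
    simp only [h5]
    rw [Finset.prod_comm]
    apply Finset.prod_congr rfl
    intro i _
    have h6 : ∀ (S : Finset (Fin s)), (((ε i : 𝓞 K) : K)) ^ (∑ t ∈ S, m t * q t i) =
        ∏ t ∈ S, (((ε i : 𝓞 K) : K)) ^ (m t * q t i) := by
      classical
      intro S
      induction S using Finset.induction_on with
      | empty => simp
      | insert t S ht ih => rw [Finset.sum_insert ht, Finset.prod_insert ht, zpow_add₀ (isU_unit' _).ne, ih]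
    exact h6 Finset.univ
  have h7 := hind _ h3
  have h8 : ∑ t, m t • q t = 0 := by
    funext i
    have h9 := congrFun h7 i
    simp only [Finset.sum_apply, Pi.smul_apply, smul_eq_mul, Pi.zero_apply] at h9 ⊢
    exact h9
  funext t
  exact Fintype.linearIndependent_iff.mp hq m h8 t

end Pool.Agent.N551.LF
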