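import Pool.Agent.N551.LF.Desc2

/-!
# One number field for each space of coefficients (helper551)
-/

set_option autoImplicit false

namespace Pool.Agent.N551.LF

open Module Finset NormedSpace NumberField Pool.Agent.W254.PA Pool.Agent.W254.Ab
open Pool.Agent.W245.PB (IsIwasawaLog brumer)

variable {p : ℕ} [hp : Fact p.Prime] {L : PadicAlgCl p → PadicAlgCl p} (hL : IsIwasawaLog p L)

include hL in
/-- the relation in terms of the new units -/
theorem rel_eq {K : Type} [Field K] (f : K →+* PadicAlgCl p) {r s : ℕ} (ε : Fin r → (𝓞 K)ˣ)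
    (q : Fin s → Fin r → ℤ) (a : Fin r → PadicAlgCl p) (b : Fin s → PadicAlgCl p)
    (hab : ∀ i, a i = ∑ j, (q j i : PadicAlgCl p) * b j) :
    ∑ t, b t * L (f (((∏ i, ε i ^ q t i : (𝓞 K)ˣ) : 𝓞 K) : K)) =
      ∑ i, a i * L (f ((ε i : 𝓞 K) : K)) := by
  have h1 : ∀ t, L (f (((∏ i, ε i ^ q t i : (𝓞 K)ˣ) : 𝓞 K) : K)) =
      ∑ i, (q t i : PadicAlgCl p) * L (f ((ε i : 𝓞 K) : K)) := by
    intro t
    rw [coe_prod_zpow', map_prod]
    simp only [map_zpow₀]
    exact log_prod_zpow hL Finset.univ (fun i => f ((ε i : 𝓞 K) : K))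
      (fun i => (isU_unit' _).map f) (q t)
  simp only [h1, hab, Finset.mul_sum, Finset.sum_mul]
  rw [Finset.sum_comm]
  apply Finset.sum_congr rfl
  intro i _
  apply Finset.sum_congr rfl
  intro t _
  ring

/-- units go up -/
theorem go_up {K M : Type} [Field K] [Field M] (j : M →+* K) {r : ℕ} (ε : Fin r → (𝓞 M)ˣ)
    (hind : ∀ m : Fin r → ℤ, ∏ i, ε i ^ m i = 1 → m = 0) :
    ∃ η : Fin r → (𝓞 K)ˣ, (∀ i, ((η i : 𝓞 K) : K) = j ((ε i : 𝓞 M) : M)) ∧
      ∀ m : Fin r → ℤ, ∏ i, η i ^ m i = 1 → m = 0 := by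
  refine ⟨fun i => unitOf (j ((ε i : 𝓞 M) : M)) ((isU_unit' _).map j), fun i => rfl, ?_⟩
  rw [indep_iff]
  rw [indep_iff] at hind
  intro m hm
  apply hind m
  apply j.injective
  rw [map_prod, map_one, ← hm]
  apply Finset.prod_congr rfl
  intro i _
  rw [map_zpow₀]
  rfl

/-- embeddings extend -/
theorem extend {K M : Type} [Field K] [Field M] [CharZero K] [CharZero M] (j : M →+* K)
    (hK : Algebra.IsAlgebraic ℚ K) (σ : M →+* PadicAlgCl p) :
    ∃ τ : K →+* PadicAlgCl p, ∀ x, τ (j x) = σ x := by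
  letI : Algebra M K := j.toAlgebra
  letI : Algebra M (PadicAlgCl p) := σ.toAlgebra
  haveI : IsScalarTower ℚ M K := IsScalarTower.of_algebraMap_eq' (RingHom.ext_rat _ _)
  haveI : Algebra.IsAlgebraic M K := Algebra.IsAlgebraic.tower_top (K := ℚ) M
  let τ : K →ₐ[M] PadicAlgCl p := IsAlgClosed.lift
  exact ⟨τ, fun x => τ.commutes x⟩

variable (A : Submodule (QA (PadicAlgCl p)) (PadicAlgCl p))

theorem hasRel_up {K M : Type} [Field K] [Field M] [CharZero K] [CharZero M] (j : M →+* K)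
    (hK : Algebra.IsAlgebraic ℚ K) (h : HasRel L A M) : HasRel L A K := by
  obtain ⟨σ, r, ε, a, h1, h2, h3, h4⟩ := h
  obtain ⟨τ, hτ⟩ := extend j hK σ
  obtain ⟨η, hη, hη2⟩ := go_up j ε h1
  refine ⟨τ, r, η, a, hη2, h2, ?_, h4⟩
  simp only [hη, hτ]
  exact h3

theorem hasLeo_up {K M : Type} [Field K] [Field M] (j : M →+* K) (h : HasLeo L A M) :
    HasLeo L A K := by
  obtain ⟨r, ε, a, h1, h2, h3, h4⟩ := h
  obtain ⟨η, hη, hη2⟩ := go_up j ε h1
  refine ⟨r, η, a, hη2, h2, ?_, h4⟩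
  intro τ
  simp only [hη]
  exact h3 (τ.comp j)

/-- finitely many intermediate fields below a finite extension -/
theorem finite_below' (F₀ : IntermediateField ℚ (AlgebraicClosure ℚ)) (h : FiniteDimensional ℚ F₀) :
    {K : IntermediateField ℚ (AlgebraicClosure ℚ) | K ≤ F₀}.Finite := by
  have h1 : Finite (IntermediateField ℚ F₀) := by
    obtain ⟨a, ha⟩ := Field.exists_primitive_element ℚ F₀
    exact Field.finite_intermediateField_of_exists_primitive_element ℚ F₀ ⟨a, ha⟩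
  refine (Set.finite_range (fun E : IntermediateField ℚ F₀ => IntermediateField.lift E)).subset ?_
  intro K hK
  exact ⟨IntermediateField.restrict hK, IntermediateField.lift_restrict hK⟩

theorem alg_sub (K : IntermediateField ℚ (AlgebraicClosure ℚ)) : Algebra.IsAlgebraic ℚ K := by
  haveI : Algebra.IsAlgebraic ℚ (AlgebraicClosure ℚ) := isGalois_Qb.to_normal.toIsAlgebraic
  exact Algebra.IsAlgebraic.of_injective K.val K.val.injective

/-- an algebraic field without rational relations: the rational numbers have no relation -/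
theorem not_hasRel_bot : ¬ HasRel L A (⊥ : IntermediateField ℚ (AlgebraicClosure ℚ)) := by
  rintro ⟨σ, r, ε, a, h1, h2, h3, h4⟩
  apply h4
  funext i
  exfalso
  have h5 : ∏ l, ε l ^ (Pi.single i (2 : ℤ) : Fin r → ℤ) l = 1 := by
    rw [Finset.prod_eq_single i]
    · rw [Pi.single_eq_same]
      apply Units.ext
      apply NumberField.RingOfIntegers.ext
      have hU := isU_unit' (ε i)
      obtain ⟨x, hx⟩ := IntermediateField.mem_bot.mp (((ε i : 𝓞 (⊥ : IntermediateField ℚ (AlgebraicClosure ℚ))) : (⊥ : IntermediateField ℚ (AlgebraicClosure ℚ)))).2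
      have hxx : algebraMap ℚ (⊥ : IntermediateField ℚ (AlgebraicClosure ℚ)) x = ((ε i : 𝓞 (⊥ : IntermediateField ℚ (AlgebraicClosure ℚ))) : (⊥ : IntermediateField ℚ (AlgebraicClosure ℚ))) := Subtype.ext hx
      have hxU : IsU x := by
        rw [← hxx] at hU
        refine ⟨?_, ?_, ?_⟩
        · intro h
          apply hU.ne
          rw [h, map_zero]
        · exact (isIntegral_algHom_iff (algebraMap ℚ (⊥ : IntermediateField ℚ (AlgebraicClosure ℚ))).toIntAlgHom (algebraMap ℚ _).injective).mp hU.int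
        · have h2 := hU.inv
          rw [← map_inv₀] at h2
          exact (isIntegral_algHom_iff (algebraMap ℚ (⊥ : IntermediateField ℚ (AlgebraicClosure ℚ))).toIntAlgHom (algebraMap ℚ _).injective).mp h2
      have hsq := sq_eq_one_of_isU hxU
      have h6 : (((ε i ^ (2 : ℤ) : (𝓞 (⊥ : IntermediateField ℚ (AlgebraicClosure ℚ)))ˣ) : 𝓞 (⊥ : IntermediateField ℚ (AlgebraicClosure ℚ))) : (⊥ : IntermediateField ℚ (AlgebraicClosure ℚ))) =
          ((ε i : 𝓞 (⊥ : IntermediateField ℚ (AlgebraicClosure ℚ))) : (⊥ : IntermediateField ℚ (AlgebraicClosure ℚ))) ^ 2 := by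
        have : (ε i ^ (2 : ℤ) : (𝓞 (⊥ : IntermediateField ℚ (AlgebraicClosure ℚ)))ˣ) = ε i ^ 2 := by
          norm_cast
        rw [this]
        push_cast
        rfl
      rw [h6, ← hxx, ← map_pow, hsq, map_one]
      rfl
    · intro l _ hl
      rw [Pi.single_eq_of_ne hl, zpow_zero]
    · intro h
      exact absurd (Finset.mem_univ i) h
  have h7 := congrFun (h1 _ h5) i
  rw [Pi.single_eq_same] at h7
  norm_num at h7

variable [FiniteDimensional (QA (PadicAlgCl p)) A]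

include hL in
theorem main : ∃ F₀ : IntermediateField ℚ (AlgebraicClosure ℚ), FiniteDimensional ℚ F₀ ∧ Normal ℚ F₀ ∧
    (∀ (K : IntermediateField ℚ (AlgebraicClosure ℚ)) (σ : K →+* PadicAlgCl p) (r : ℕ)
      (ε : Fin r → (𝓞 K)ˣ) (a : Fin r → PadicAlgCl p), InMul A a →
      ∑ i, a i * L (σ ((ε i : 𝓞 K) : K)) = 0 →
      ∃ (s : ℕ) (q : Fin s → Fin r → ℤ) (b : Fin s → PadicAlgCl p), LinearIndependent ℤ q ∧
        InMul A b ∧ (∀ i, a i = ∑ j, (q j i : PadicAlgCl p) * b j) ∧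
        ∀ j, ((((∏ i, ε i ^ q j i : (𝓞 K)ˣ) : 𝓞 K) : K) : AlgebraicClosure ℚ) ∈ F₀) ∧
    (∀ K : IntermediateField ℚ (AlgebraicClosure ℚ), HasRel L A K ↔
      HasRel L A (K ⊓ F₀ : IntermediateField ℚ (AlgebraicClosure ℚ))) ∧
    (∀ K : IntermediateField ℚ (AlgebraicClosure ℚ), HasLeo L A K ↔
      HasLeo L A (K ⊓ F₀ : IntermediateField ℚ (AlgebraicClosure ℚ))) ∧
    (∀ K : IntermediateField ℚ (AlgebraicClosure ℚ), HasLeo L A K → HasLeo L A F₀) ∧
    (∀ K : IntermediateField ℚ (AlgebraicClosure ℚ), K ⊓ F₀ = ⊥ → ¬ HasRel L A K) ∧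
    {K : IntermediateField ℚ (AlgebraicClosure ℚ) |
      (∀ M : IntermediateField ℚ (AlgebraicClosure ℚ), M ≤ K → M = ⊥ ∨ M = K) ∧
        HasRel L A K}.Finite := by
  haveI := isGalois_Qb
  have hι : Nonempty (AlgebraicClosure ℚ →+* PadicAlgCl p) := by
    haveI : Algebra.IsAlgebraic ℚ (AlgebraicClosure ℚ) := isGalois_Qb.to_normal.toIsAlgebraic
    exact ⟨((IsAlgClosed.lift : AlgebraicClosure ℚ →ₐ[ℚ] PadicAlgCl p) :
      AlgebraicClosure ℚ →+* PadicAlgCl p)⟩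
  obtain ⟨ι₀⟩ := hι
  obtain ⟨F₀, h1, h2, h3⟩ := descend' hL (k := ℚ) (Q := AlgebraicClosure ℚ)
    (fun f g => RingHom.ext_rat f g) ι₀ A
  have hdes : ∀ (K : IntermediateField ℚ (AlgebraicClosure ℚ)) (σ : K →+* PadicAlgCl p) (r : ℕ)
      (ε : Fin r → (𝓞 K)ˣ) (a : Fin r → PadicAlgCl p), InMul A a →
      ∑ i, a i * L (σ ((ε i : 𝓞 K) : K)) = 0 →
      ∃ (s : ℕ) (q : Fin s → Fin r → ℤ) (b : Fin s → PadicAlgCl p), LinearIndependent ℤ q ∧
        InMul A b ∧ (∀ i, a i = ∑ j, (q j i : PadicAlgCl p) * b j) ∧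
        ∀ j, ((((∏ i, ε i ^ q j i : (𝓞 K)ˣ) : 𝓞 K) : K) : AlgebraicClosure ℚ) ∈ F₀ := by
    intro K σ r ε a ha ha0
    obtain ⟨s, q, b, g1, g2, g3, g4⟩ := h3 K σ r (fun i => ((ε i : 𝓞 K) : K))
      (fun i => isU_unit' _) a ha ha0
    refine ⟨s, q, b, g1, g2, g3, ?_⟩
    intro j
    rw [coe_prod_zpow']
    exact g4 j
  -- the new units
  have hunits : ∀ (K : IntermediateField ℚ (AlgebraicClosure ℚ)) (r s : ℕ)
      (ε : Fin r → (𝓞 K)ˣ), (∀ m : Fin r → ℤ, ∏ i, ε i ^ m i = 1 → m = 0) →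
      ∀ (q : Fin s → Fin r → ℤ), LinearIndependent ℤ q →
      (∀ j, ((((∏ i, ε i ^ q j i : (𝓞 K)ˣ) : 𝓞 K) : K) : AlgebraicClosure ℚ) ∈ F₀) →
      ∃ η : Fin s → (𝓞 (K ⊓ F₀ : IntermediateField ℚ (AlgebraicClosure ℚ)))ˣ,
        (∀ t, IntermediateField.inclusion (inf_le_left : K ⊓ F₀ ≤ K)
          ((η t : 𝓞 (K ⊓ F₀ : IntermediateField ℚ (AlgebraicClosure ℚ))) :
            (K ⊓ F₀ : IntermediateField ℚ (AlgebraicClosure ℚ))) =
              (((∏ i, ε i ^ q t i : (𝓞 K)ˣ) : 𝓞 K) : K)) ∧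
        ∀ m : Fin s → ℤ, ∏ t, η t ^ m t = 1 → m = 0 := by
    intro K r s ε hind q hq hmem
    let x : Fin s → (K ⊓ F₀ : IntermediateField ℚ (AlgebraicClosure ℚ)) := fun t =>
      ⟨((((∏ i, ε i ^ q t i : (𝓞 K)ˣ) : 𝓞 K) : K) : AlgebraicClosure ℚ),
        ⟨((((∏ i, ε i ^ q t i : (𝓞 K)ˣ) : 𝓞 K) : K)).2, hmem t⟩⟩
    obtain ⟨η, e1, e2⟩ := transport
      (IntermediateField.inclusion (inf_le_left : K ⊓ F₀ ≤ K) : _ →+* K) ε hind q hq x
      (fun t => rfl)
    refine ⟨η, ?_, e2⟩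
    intro t
    rw [e1 t]
    rfl
  have hb0 : ∀ (r s : ℕ) (q : Fin s → Fin r → ℤ) (a : Fin r → PadicAlgCl p)
      (b : Fin s → PadicAlgCl p), a ≠ 0 → (∀ i, a i = ∑ j, (q j i : PadicAlgCl p) * b j) →
      b ≠ 0 := by
    intro r s q a b ha hab hb
    apply ha
    funext i
    rw [hab i, hb]
    simp
  have hrel : ∀ K : IntermediateField ℚ (AlgebraicClosure ℚ), HasRel L A K →
      HasRel L A (K ⊓ F₀ : IntermediateField ℚ (AlgebraicClosure ℚ)) := by
    rintro K ⟨σ, r, ε, a, g1, g2, g3, g4⟩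
    obtain ⟨s, q, b, e1, e2, e3, e4⟩ := hdes K σ r ε a g2 g3
    obtain ⟨η, f1, f2⟩ := hunits K r s ε g1 q e1 e4
    refine ⟨σ.comp (IntermediateField.inclusion (inf_le_left : K ⊓ F₀ ≤ K) : _ →+* K), s, η, b,
      f2, e2, ?_, hb0 r s q a b g4 e3⟩
    have h5 := rel_eq hL σ ε q a b e3
    rw [g3] at h5
    rw [← h5]
    apply Finset.sum_congr rfl
    intro t _
    rw [RingHom.comp_apply, ← f1 t]
    rfl
  have hleo : ∀ K : IntermediateField ℚ (AlgebraicClosure ℚ), HasLeo L A K →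
      HasLeo L A (K ⊓ F₀ : IntermediateField ℚ (AlgebraicClosure ℚ)) := by
    rintro K ⟨r, ε, a, g1, g2, g3, g4⟩
    have hσ : Nonempty (K →+* PadicAlgCl p) := ⟨ι₀.comp (K.val : K →+* AlgebraicClosure ℚ)⟩
    obtain ⟨σ₀⟩ := hσ
    obtain ⟨s, q, b, e1, e2, e3, e4⟩ := hdes K σ₀ r ε a g2 (g3 σ₀)
    obtain ⟨η, f1, f2⟩ := hunits K r s ε g1 q e1 e4
    refine ⟨s, η, b, f2, e2, ?_, hb0 r s q a b g4 e3⟩
    intro τ
    obtain ⟨σ, hσ⟩ := extend (IntermediateField.inclusion (inf_le_left : K ⊓ F₀ ≤ K) : _ →+* K)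
      (alg_sub K) τ
    have h5 := rel_eq hL σ ε q a b e3
    rw [g3 σ] at h5
    rw [← h5]
    apply Finset.sum_congr rfl
    intro t _
    rw [← f1 t, ← hσ]
    rfl
  have hbot : ∀ K : IntermediateField ℚ (AlgebraicClosure ℚ), K ⊓ F₀ = ⊥ → ¬ HasRel L A K := by
    intro K hK h
    have h5 := hrel K h
    rw [hK] at h5
    exact not_hasRel_bot A h5
  refine ⟨F₀, ?_, ?_, hdes, ?_, ?_, ?_, hbot, ?_⟩
  · convert h1
  · convert h2
    exact Subsingleton.elim _ _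
  · intro K
    exact ⟨hrel K, hasRel_up A
      (IntermediateField.inclusion (inf_le_left : K ⊓ F₀ ≤ K) : _ →+* K) (alg_sub K)⟩
  · intro K
    exact ⟨hleo K, hasLeo_up A
      (IntermediateField.inclusion (inf_le_left : K ⊓ F₀ ≤ K) : _ →+* K)⟩
  · intro K h
    exact hasLeo_up A (IntermediateField.inclusion (inf_le_right : K ⊓ F₀ ≤ F₀) : _ →+* F₀)
      (hleo K h)
  · refine (finite_below' F₀ (by convert h1)).subset ?_
    rintro K ⟨hK, h5⟩
    by_contra hKF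
    rcases hK (K ⊓ F₀) inf_le_left with h4 | h4
    · exact hbot K h4 h5
    · exact hKF (inf_eq_left.mp h4)

end Pool.Agent.N551.LF
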